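import Mathlib

namespace Pool.Agent.X75.Brs

open Finset Classical

/-- Labelling of the free orbits of an action all of whose orbits are trivial or regular. -/
theorem exists_label {G X : Type} [Group G] [Fintype G] [Fintype X] [MulAction G X]
    (hsf : ∀ x : X, (∀ g : G, g • x = x) ∨ (∀ g : G, g • x = x → g = 1)) (r : ℕ)
    (hX : (univ.filter fun x : X => ¬ ∀ g : G, g • x = x).card = r * Fintype.card G) :
    ∃ ρ : X → Option (Fin r), (∀ (g : G) x, ρ (g • x) = ρ x) ∧
      (∀ x, ρ x = none ↔ ∀ g : G, g • x = x) ∧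
      (∀ a, (univ.filter fun x => ρ x = some a).card = Fintype.card G) ∧
      (∀ x y, ρ x = ρ y → ρ x ≠ none → ∃ g : G, g • x = y) := by
  set NF := univ.filter fun x : X => ¬ ∀ g : G, g • x = x with hNF
  have memNF : ∀ x, x ∈ NF ↔ ¬ ∀ g : G, g • x = x := by intro x; simp [hNF]
  have free : ∀ x ∈ NF, ∀ g : G, g • x = x → g = 1 := fun x hx =>
    (hsf x).resolve_left ((memNF x).1 hx)
  have NFsmul : ∀ (g : G) (x : X), g • x ∈ NF ↔ x ∈ NF := by
    intro g x
    rw [memNF, memNF, not_iff_not]
    constructor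
    · intro H h
      have := H (g * h * g⁻¹)
      rw [smul_smul, inv_mul_cancel_right, mul_smul] at this
      exact smul_left_cancel g this
    · intro H h
      rw [H g, H h]
  let orb : X → Finset X := fun x => univ.image fun g : G => g • x
  have memorb : ∀ x y, y ∈ orb x ↔ ∃ g : G, g • x = y := by intro x y; simp [orb]
  have orbself : ∀ x, x ∈ orb x := fun x => (memorb x x).2 ⟨1, one_smul _ _⟩
  have orb_smul : ∀ (g : G) x, orb (g • x) = orb x := by
    intro g x; ext y; rw [memorb, memorb]
    constructor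
    · rintro ⟨h, rfl⟩; exact ⟨h * g, mul_smul _ _ _⟩
    · rintro ⟨h, rfl⟩; exact ⟨h * g⁻¹, by rw [smul_smul, inv_mul_cancel_right]⟩
  have orbcard : ∀ x ∈ NF, (orb x).card = Fintype.card G := by
    intro x hx
    rw [Finset.card_image_of_injective, Finset.card_univ]
    intro g h hgh
    have hgh : g • x = h • x := hgh
    have : (h⁻¹ * g) • x = x := by rw [mul_smul, hgh, inv_smul_smul]
    exact (inv_mul_eq_one.1 (free x hx _ this)).symm
  have fib : ∀ x ∈ NF, NF.filter (fun y => orb y = orb x) = orb x := by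
    intro x hx; ext y
    rw [Finset.mem_filter]
    constructor
    · rintro ⟨_, h⟩; rw [← h]; exact orbself y
    · intro h
      obtain ⟨g, rfl⟩ := (memorb x y).1 h
      exact ⟨(NFsmul g x).2 hx, orb_smul g x⟩
  have mpos : 0 < Fintype.card G := Fintype.card_pos_iff.2 ⟨1⟩
  have hP : (NF.image orb).card = r := by
    have h := Finset.card_eq_sum_card_image orb NF
    rw [Finset.sum_const_nat (m := Fintype.card G)] at h
    · rw [hX] at h
      exact (Nat.eq_of_mul_eq_mul_right mpos h).symm
    · intro b hb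
      obtain ⟨x, hx, rfl⟩ := Finset.mem_image.1 hb
      rw [fib x hx, orbcard x hx]
  let e := (NF.image orb).equivFinOfCardEq hP
  let ρ : X → Option (Fin r) := fun x =>
    if h : x ∈ NF then some (e ⟨orb x, Finset.mem_image_of_mem _ h⟩) else none
  have ρpos : ∀ x (h : x ∈ NF), ρ x = some (e ⟨orb x, Finset.mem_image_of_mem _ h⟩) :=
    fun x h => dif_pos h
  have ρneg : ∀ x, x ∉ NF → ρ x = none := fun x h => dif_neg h
  have ρeq : ∀ x y, x ∈ NF → y ∈ NF → (ρ x = ρ y ↔ orb x = orb y) := by
    intro x y hx hy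
    rw [ρpos x hx, ρpos y hy, Option.some.injEq, e.injective.eq_iff, Subtype.mk.injEq]
  refine ⟨ρ, ?_, ?_, ?_, ?_⟩
  · intro g x
    by_cases h : x ∈ NF
    · exact (ρeq _ _ ((NFsmul g x).2 h) h).2 (orb_smul g x)
    · rw [ρneg x h, ρneg (g • x) (fun h' => h ((NFsmul g x).1 h'))]
  · intro x
    by_cases h : x ∈ NF
    · rw [ρpos x h]
      exact ⟨fun h' => by simp at h', fun h' => absurd h' ((memNF x).1 h)⟩
    · exact ⟨fun _ => not_not.1 (fun h' => h ((memNF x).2 h')), fun _ => ρneg x h⟩
  · intro a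
    obtain ⟨x0, hx0, hx0'⟩ := Finset.mem_image.1 (e.symm a).2
    have h0 : ρ x0 = some a := by
      rw [ρpos x0 hx0, Option.some.injEq]
      rw [← e.apply_symm_apply a]
      congr 1
      exact Subtype.ext hx0'
    have : (univ.filter fun x => ρ x = some a) = orb x0 := by
      rw [← fib x0 hx0]
      ext y
      rw [Finset.mem_filter, Finset.mem_filter]
      constructor
      · rintro ⟨_, h⟩
        have hy : y ∈ NF := by
          by_contra hy; rw [ρneg y hy] at h; exact absurd h (by simp)
        exact ⟨hy, (ρeq y x0 hy hx0).1 (h.trans h0.symm)⟩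
      · rintro ⟨hy, h⟩
        exact ⟨Finset.mem_univ _, ((ρeq y x0 hy hx0).2 h).trans h0⟩
    rw [this, orbcard x0 hx0]
  · intro x y h hne
    have hx : x ∈ NF := by by_contra hx; exact hne (ρneg x hx)
    have hy : y ∈ NF := by by_contra hy; exact hne (h.trans (ρneg y hy))
    have := (ρeq x y hx hy).1 h
    exact (memorb x y).1 (this ▸ orbself y)

end Pool.Agent.X75.Brs
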