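import Pool.Agent.X75.Brs.Cert

namespace Pool.Agent.X75.Brs

open Finset

theorem lsum (f : ℕ → ℕ) : ∀ n, ((List.range n).map f).sum = ∑ i ∈ range n, f i
  | 0 => by simp
  | n + 1 => by
    rw [List.range_succ, List.map_append, List.sum_append, Finset.sum_range_succ, lsum f n]
    simp

theorem split27 (u : ℕ → ℕ) : ∑ i ∈ range 27, u i =
      ∑ a ∈ range 3, ∑ b ∈ range 3, u (3 * a + b) +
      ∑ a ∈ range 3, ∑ c ∈ range 3, u (9 + 3 * a + c) +
      ∑ b ∈ range 3, ∑ c ∈ range 3, u (18 + 3 * b + c) := by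
  simp only [Finset.sum_range_succ, Finset.sum_range_zero, Nat.reduceMul, Nat.reduceAdd,
    Nat.zero_add, Nat.mul_zero, Nat.add_zero, Nat.mul_one]
  omega

theorem split6 (u : ℕ → ℕ) : ∑ i ∈ range 6, u (27 + i) =
      u 27 + u 28 + u 29 + u 30 + u 31 + u 32 := by
  simp only [Finset.sum_range_succ, Finset.sum_range_zero, Nat.reduceMul, Nat.reduceAdd,
    Nat.zero_add, Nat.mul_zero, Nat.add_zero, Nat.mul_one]

theorem leaf_sound (y : ℕ → ℕ → ℕ → ℕ) (Y : ℕ → ℕ) (hY : ∀ a b c, y a b c = Y (9 * a + 3 * b + c))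
    (M : ℕ)
    (hc : ∀ a < 3, ∀ b < 3, ∑ c ∈ range 3, y a b c ≤ M)
    (hb : ∀ a < 3, ∀ c < 3, ∑ b ∈ range 3, y a b c ≤ M)
    (ha : ∀ b < 3, ∀ c < 3, ∑ a ∈ range 3, y a b c ≤ M)
    (pa : ∀ a < 3, 2 * M + 1 ≤ ∑ b ∈ range 3, ∑ c ∈ range 3, y a b c)
    (pb : ∀ b < 3, 2 * M + 1 ≤ ∑ a ∈ range 3, ∑ c ∈ range 3, y a b c)
    (z w : ℕ) (hz : ∀ i, Nat.testBit z i = true → Y i = 0) (hl : leafOK z w = true) : False := by
  simp only [leafOK, Bool.and_eq_true, List.all_eq_true, List.mem_range, Bool.or_eq_true,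
    decide_eq_true_eq] at hl
  obtain ⟨⟨h1, h2⟩, h3⟩ := hl
  generalize hu : dg w = u at h1 h2 h3
  have key : ∀ a ∈ range 3, ∀ b ∈ range 3, ∀ c ∈ range 3,
      (u (27 + a) + u (30 + b)) * y a b c ≤
        (u (3 * a + b) + u (9 + 3 * a + c) + u (18 + 3 * b + c)) * y a b c := by
    intro a ha b hb c hc
    rw [Finset.mem_range] at ha hb hc
    rcases h1 a ha b hb c hc with h | h
    · rw [hY, hz _ h]; simp
    · exact Nat.mul_le_mul_right _ h
  have s1 : ∑ a ∈ range 3, ∑ b ∈ range 3, ∑ c ∈ range 3, (u (27 + a) + u (30 + b)) * y a b c ≤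
      ∑ a ∈ range 3, ∑ b ∈ range 3, ∑ c ∈ range 3,
        (u (3 * a + b) + u (9 + 3 * a + c) + u (18 + 3 * b + c)) * y a b c :=
    Finset.sum_le_sum fun a ha => Finset.sum_le_sum fun b hb => Finset.sum_le_sum fun c hc =>
      key a ha b hb c hc
  have e1 : ∑ a ∈ range 3, ∑ b ∈ range 3, ∑ c ∈ range 3, (u (27 + a) + u (30 + b)) * y a b c =
      ∑ a ∈ range 3, u (27 + a) * (∑ b ∈ range 3, ∑ c ∈ range 3, y a b c) +
      ∑ b ∈ range 3, u (30 + b) * (∑ a ∈ range 3, ∑ c ∈ range 3, y a b c) := by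
    simp only [Finset.sum_range_succ, Finset.sum_range_zero]; ring
  have e2 : ∑ a ∈ range 3, ∑ b ∈ range 3, ∑ c ∈ range 3,
        (u (3 * a + b) + u (9 + 3 * a + c) + u (18 + 3 * b + c)) * y a b c =
      ∑ a ∈ range 3, ∑ b ∈ range 3, u (3 * a + b) * (∑ c ∈ range 3, y a b c) +
      ∑ a ∈ range 3, ∑ c ∈ range 3, u (9 + 3 * a + c) * (∑ b ∈ range 3, y a b c) +
      ∑ b ∈ range 3, ∑ c ∈ range 3, u (18 + 3 * b + c) * (∑ a ∈ range 3, y a b c) := by
    simp only [Finset.sum_range_succ, Finset.sum_range_zero]; ring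
  have b1 : ∑ a ∈ range 3, u (27 + a) * (2 * M + 1) + ∑ b ∈ range 3, u (30 + b) * (2 * M + 1) ≤
      ∑ a ∈ range 3, u (27 + a) * (∑ b ∈ range 3, ∑ c ∈ range 3, y a b c) +
      ∑ b ∈ range 3, u (30 + b) * (∑ a ∈ range 3, ∑ c ∈ range 3, y a b c) :=
    Nat.add_le_add
      (Finset.sum_le_sum fun a h => Nat.mul_le_mul_left _ (pa a (Finset.mem_range.mp h)))
      (Finset.sum_le_sum fun a h => Nat.mul_le_mul_left _ (pb a (Finset.mem_range.mp h)))
  have b2 : ∑ a ∈ range 3, ∑ b ∈ range 3, u (3 * a + b) * (∑ c ∈ range 3, y a b c) +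
      ∑ a ∈ range 3, ∑ c ∈ range 3, u (9 + 3 * a + c) * (∑ b ∈ range 3, y a b c) +
      ∑ b ∈ range 3, ∑ c ∈ range 3, u (18 + 3 * b + c) * (∑ a ∈ range 3, y a b c) ≤
      ∑ a ∈ range 3, ∑ b ∈ range 3, u (3 * a + b) * M +
      ∑ a ∈ range 3, ∑ c ∈ range 3, u (9 + 3 * a + c) * M +
      ∑ b ∈ range 3, ∑ c ∈ range 3, u (18 + 3 * b + c) * M :=
    Nat.add_le_add (Nat.add_le_add
      (Finset.sum_le_sum fun a h => Finset.sum_le_sum fun b h' => Nat.mul_le_mul_left _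
        (hc a (Finset.mem_range.mp h) b (Finset.mem_range.mp h')))
      (Finset.sum_le_sum fun a h => Finset.sum_le_sum fun b h' => Nat.mul_le_mul_left _
        (hb a (Finset.mem_range.mp h) b (Finset.mem_range.mp h'))))
      (Finset.sum_le_sum fun a h => Finset.sum_le_sum fun b h' => Nat.mul_le_mul_left _
        (ha a (Finset.mem_range.mp h) b (Finset.mem_range.mp h')))
  rw [lsum, lsum, split6, split27] at h2
  rw [lsum, split6] at h3
  have g1 : ∑ a ∈ range 3, u (27 + a) * (2 * M + 1) + ∑ b ∈ range 3, u (30 + b) * (2 * M + 1) =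
      (u 27 + u 28 + u 29 + u 30 + u 31 + u 32) * (2 * M + 1) := by
    simp only [Finset.sum_range_succ, Finset.sum_range_zero]; ring
  have g2 : ∑ a ∈ range 3, ∑ b ∈ range 3, u (3 * a + b) * M +
      ∑ a ∈ range 3, ∑ c ∈ range 3, u (9 + 3 * a + c) * M +
      ∑ b ∈ range 3, ∑ c ∈ range 3, u (18 + 3 * b + c) * M =
      (∑ a ∈ range 3, ∑ b ∈ range 3, u (3 * a + b) +
      ∑ a ∈ range 3, ∑ c ∈ range 3, u (9 + 3 * a + c) +
      ∑ b ∈ range 3, ∑ c ∈ range 3, u (18 + 3 * b + c)) * M := by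
    simp only [Finset.sum_mul, add_mul]
  have t1 : (u 27 + u 28 + u 29 + u 30 + u 31 + u 32) * (2 * M + 1) ≤
      (2 * (u 27 + u 28 + u 29 + u 30 + u 31 + u 32)) * M := by
    calc _ = _ := g1.symm
      _ ≤ _ := b1
      _ = _ := e1.symm
      _ ≤ _ := s1
      _ = _ := e2
      _ ≤ _ := b2
      _ = _ := g2
      _ ≤ _ := Nat.mul_le_mul_right _ h2
  generalize (u 27 + u 28 + u 29 + u 30 + u 31 + u 32) = V at t1 h3
  nlinarith

theorem testBit_or_shift (z c i : ℕ) (h : Nat.testBit (z ||| (1 <<< c)) i = true) :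
    Nat.testBit z i = true ∨ i = c := by
  rw [Nat.testBit_or, Nat.one_shiftLeft, Nat.testBit_two_pow, Bool.or_eq_true,
    decide_eq_true_eq] at h
  rcases h with h | h
  · exact Or.inl h
  · exact Or.inr h.symm

theorem chk_sound (Y : ℕ → ℕ)
    (leaf : ∀ z w : ℕ, (∀ i, Nat.testBit z i = true → Y i = 0) → leafOK z w = true → False)
    (t : T) : ∀ z p : ℕ, chk t z p = true → (∀ i, Nat.testBit z i = true → Y i = 0) →
      (∀ i, Nat.testBit p i = true → Y i ≠ 0) →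
      ∃ d < 36, Y (cl d 0) ≠ 0 ∧ Y (cl d 1) ≠ 0 ∧ Y (cl d 2) ≠ 0 := by
  induction t with
  | s => intro z p h; simp [chk] at h
  | l w => intro z p h hz _; exact (leaf z w hz (by simpa [chk] using h)).elim
  | n d t0 t1 t2 i0 i1 i2 =>
    intro z p h hz hp
    simp only [chk, Bool.and_eq_true, Bool.or_eq_true, decide_eq_true_eq] at h
    obtain ⟨⟨⟨h0, h1⟩, h2⟩, hd⟩ := h
    have ext : ∀ c, Y c = 0 → ∀ i, Nat.testBit (z ||| (1 <<< c)) i = true → Y i = 0 := by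
      intro c hc i hi
      rcases testBit_or_shift z c i hi with h | h
      · exact hz i h
      · rw [h]; exact hc
    have extp : ∀ q : ℕ, (∀ i, Nat.testBit q i = true → Y i ≠ 0) → ∀ c, Y c ≠ 0 →
        ∀ i, Nat.testBit (q ||| (1 <<< c)) i = true → Y i ≠ 0 := by
      intro q hq c hc i hi
      rcases testBit_or_shift q c i hi with h | h
      · exact hq i h
      · rw [h]; exact hc
    by_cases c0 : Y (cl d 0) = 0
    · rcases h0 with h0 | h0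
      · exact absurd c0 (hp _ h0)
      · exact i0 _ _ h0 (ext _ c0) hp
    by_cases c1 : Y (cl d 1) = 0
    · rcases h1 with h1 | h1
      · exact absurd c1 (hp _ h1)
      · exact i1 _ _ h1 (ext _ c1) (extp _ hp _ c0)
    by_cases c2 : Y (cl d 2) = 0
    · rcases h2 with h2 | h2
      · exact absurd c2 (hp _ h2)
      · exact i2 _ _ h2 (ext _ c2) (extp _ (extp _ hp _ c0) _ c1)
    exact ⟨d, hd, c0, c1, c2⟩

/-- the permutations of `Fin 3` in the order of `pr`. -/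
theorem pr_perm : ∀ q < 6, ∃ σ : Equiv.Perm (Fin 3), ∀ k : Fin 3, (σ k : ℕ) = pr q k := by
  intro q hq
  have : ∀ q : Fin 6, ∃ σ : Equiv.Perm (Fin 3), ∀ k : Fin 3, (σ k : ℕ) = pr q k := by decide
  exact this ⟨q, hq⟩

/-- **The 3 x 3 x 3 lemma.** -/
theorem three (y : Fin 3 → Fin 3 → Fin 3 → ℕ) (M : ℕ)
    (hc : ∀ a b, ∑ c, y a b c ≤ M) (hb : ∀ a c, ∑ b, y a b c ≤ M) (ha : ∀ b c, ∑ a, y a b c ≤ M)
    (pa : ∀ a, 2 * M + 1 ≤ ∑ b, ∑ c, y a b c) (pb : ∀ b, 2 * M + 1 ≤ ∑ a, ∑ c, y a b c) :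
    ∃ σ τ : Equiv.Perm (Fin 3), ∀ k, y k (σ k) (τ k) ≠ 0 := by
  let Y : ℕ → ℕ := fun i => y (Fin.ofNat 3 (i / 9)) (Fin.ofNat 3 (i / 3)) (Fin.ofNat 3 i)
  let y' : ℕ → ℕ → ℕ → ℕ := fun a b c => Y (9 * a + 3 * b + c)
  have hy' : ∀ a b c : Fin 3, Y (9 * (a : ℕ) + 3 * (b : ℕ) + (c : ℕ)) = y a b c := by
    intro a b c
    have e1 : Fin.ofNat 3 ((9 * (a : ℕ) + 3 * (b : ℕ) + (c : ℕ)) / 9) = a := by
      apply Fin.ext; simp only [Fin.ofNat]; omega
    have e2 : Fin.ofNat 3 ((9 * (a : ℕ) + 3 * (b : ℕ) + (c : ℕ)) / 3) = b := by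
      apply Fin.ext; simp only [Fin.ofNat]; omega
    have e3 : Fin.ofNat 3 ((9 * (a : ℕ) + 3 * (b : ℕ) + (c : ℕ))) = c := by
      apply Fin.ext; simp only [Fin.ofNat]; omega
    simp only [Y]; rw [e1, e2, e3]
  have conv : ∀ a < 3, ∀ b < 3, ∀ c < 3, ∃ a' b' c' : Fin 3, (a' : ℕ) = a ∧ (b' : ℕ) = b ∧
      (c' : ℕ) = c := fun a h1 b h2 c h3 => ⟨⟨a, h1⟩, ⟨b, h2⟩, ⟨c, h3⟩, rfl, rfl, rfl⟩
  have leaf : ∀ z w : ℕ, (∀ i, Nat.testBit z i = true → Y i = 0) → leafOK z w = true → False := by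
    intro z w hz hl
    refine leaf_sound y' Y (fun a b c => rfl) M ?_ ?_ ?_ ?_ ?_ z w hz hl
    · intro a h1 b h2
      have := hc ⟨a, h1⟩ ⟨b, h2⟩
      rw [Finset.sum_range]
      refine le_trans (le_of_eq (Finset.sum_congr rfl fun c _ => ?_)) this
      exact hy' ⟨a, h1⟩ ⟨b, h2⟩ c
    · intro a h1 c h2
      have := hb ⟨a, h1⟩ ⟨c, h2⟩
      rw [Finset.sum_range]
      refine le_trans (le_of_eq (Finset.sum_congr rfl fun b _ => ?_)) this
      exact hy' ⟨a, h1⟩ b ⟨c, h2⟩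
    · intro b h1 c h2
      have := ha ⟨b, h1⟩ ⟨c, h2⟩
      rw [Finset.sum_range]
      refine le_trans (le_of_eq (Finset.sum_congr rfl fun a _ => ?_)) this
      exact hy' a ⟨b, h1⟩ ⟨c, h2⟩
    · intro a h1
      refine le_trans (pa ⟨a, h1⟩) (le_of_eq ?_)
      rw [Finset.sum_range]
      refine Finset.sum_congr rfl fun b _ => ?_
      rw [Finset.sum_range]
      exact Finset.sum_congr rfl fun c _ => (hy' ⟨a, h1⟩ b c).symm
    · intro b h1
      refine le_trans (pb ⟨b, h1⟩) (le_of_eq ?_)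
      rw [Finset.sum_range]
      refine Finset.sum_congr rfl fun a _ => ?_
      rw [Finset.sum_range]
      exact Finset.sum_congr rfl fun c _ => (hy' a ⟨b, h1⟩ c).symm
  obtain ⟨d, hd, h0, h1, h2⟩ := chk_sound Y leaf cert 0 0 chk_cert (by simp) (by simp)
  obtain ⟨σ, hσ⟩ := pr_perm (d / 6) (by omega)
  obtain ⟨τ, hτ⟩ := pr_perm (d % 6) (by omega)
  refine ⟨σ, τ, fun k => ?_⟩
  rw [← hy' k (σ k) (τ k), hσ, hτ]
  fin_cases k
  · exact h0
  · exact h1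
  · exact h2

end Pool.Agent.X75.Brs
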