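import Pool.Agent.X75.Brs.Arr

namespace Pool.Agent.X75.Brs

open Finset

def dl {r : ℕ} (o : Option (Fin r)) (a : Fin r) : ℕ := if o = some a then 1 else 0

def nu {r : ℕ} (o : Option (Fin r)) : ℕ := if o = none then 0 else 1

theorem sum_dl {r : ℕ} (o : Option (Fin r)) : ∑ a, dl o a = nu o := by
  cases o with
  | none => simp [dl, nu]
  | some k => simp [dl, nu, Finset.sum_ite_eq]

theorem nu_le {r : ℕ} (o : Option (Fin r)) : nu o ≤ 1 := by
  unfold nu; split_ifs <;> omega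

theorem nu_mul {r : ℕ} (o p : Option (Fin r)) : nu o + nu p ≤ nu o * nu p + 1 := by
  unfold nu; split_ifs <;> simp

theorem nu_mul_eq {r : ℕ} (o p : Option (Fin r)) (h : ¬(o = none ∧ p = none)) :
    nu o + nu p = nu o * nu p + 1 := by
  unfold nu; split_ifs <;> simp_all

section
variable {R C S : Type} [Fintype R] [Fintype C] [Fintype S] {r : ℕ}
  (L : R → C → S) (ρ : R → Option (Fin r)) (κ : C → Option (Fin r)) (τ : S → Option (Fin r))

def NN (a b c : Fin r) : ℕ := ∑ i, ∑ j, dl (ρ i) a * dl (κ j) b * dl (τ (L i j)) c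

variable {L ρ κ τ} {m f : ℕ}
  (hrow : ∀ i, Function.Bijective (L i)) (hcol : ∀ j, Function.Bijective fun i => L i j)
  (mR : ∀ a, ∑ i, dl (ρ i) a = m) (mC : ∀ a, ∑ j, dl (κ j) a = m)
  (mS : ∀ a, ∑ s, dl (τ s) a = m)

include mR mC in
theorem lineC (a b : Fin r) : ∑ c, NN L ρ κ τ a b c ≤ m * m := by
  have e : ∑ c, NN L ρ κ τ a b c = ∑ i, ∑ j, dl (ρ i) a * dl (κ j) b * nu (τ (L i j)) := by
    unfold NN
    rw [Finset.sum_comm]
    refine Finset.sum_congr rfl fun i _ => ?_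
    rw [Finset.sum_comm]
    refine Finset.sum_congr rfl fun j _ => ?_
    rw [← Finset.mul_sum, sum_dl]
  rw [e]
  calc ∑ i, ∑ j, dl (ρ i) a * dl (κ j) b * nu (τ (L i j))
      ≤ ∑ i, ∑ j, dl (ρ i) a * dl (κ j) b := by
        refine Finset.sum_le_sum fun i _ => Finset.sum_le_sum fun j _ => ?_
        calc _ ≤ dl (ρ i) a * dl (κ j) b * 1 := Nat.mul_le_mul_left _ (nu_le _)
          _ = _ := mul_one _
    _ = m * m := by
        rw [← Finset.sum_mul_sum, mR, mC]

include hrow mR mS in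
theorem lineB (a c : Fin r) : ∑ b, NN L ρ κ τ a b c ≤ m * m := by
  have e : ∑ b, NN L ρ κ τ a b c = ∑ i, ∑ j, dl (ρ i) a * nu (κ j) * dl (τ (L i j)) c := by
    unfold NN
    rw [Finset.sum_comm]
    refine Finset.sum_congr rfl fun i _ => ?_
    rw [Finset.sum_comm]
    refine Finset.sum_congr rfl fun j _ => ?_
    rw [← Finset.sum_mul, ← Finset.mul_sum, sum_dl]
  rw [e]
  calc ∑ i, ∑ j, dl (ρ i) a * nu (κ j) * dl (τ (L i j)) c
      ≤ ∑ i, ∑ j, dl (ρ i) a * dl (τ (L i j)) c := by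
        refine Finset.sum_le_sum fun i _ => Finset.sum_le_sum fun j _ => ?_
        refine Nat.mul_le_mul_right _ ?_
        calc _ ≤ dl (ρ i) a * 1 := Nat.mul_le_mul_left _ (nu_le _)
          _ = _ := mul_one _
    _ = ∑ i, dl (ρ i) a * m := by
        refine Finset.sum_congr rfl fun i _ => ?_
        rw [← Finset.mul_sum, (hrow i).sum_comp (fun s => dl (τ s) c), mS]
    _ = m * m := by rw [← Finset.sum_mul, mR]

include hcol mC mS in
theorem lineA (b c : Fin r) : ∑ a, NN L ρ κ τ a b c ≤ m * m := by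
  have e : ∑ a, NN L ρ κ τ a b c = ∑ i, ∑ j, nu (ρ i) * dl (κ j) b * dl (τ (L i j)) c := by
    unfold NN
    rw [Finset.sum_comm]
    refine Finset.sum_congr rfl fun i _ => ?_
    rw [Finset.sum_comm]
    refine Finset.sum_congr rfl fun j _ => ?_
    rw [← Finset.sum_mul, ← Finset.sum_mul, sum_dl]
  rw [e, Finset.sum_comm]
  calc ∑ j, ∑ i, nu (ρ i) * dl (κ j) b * dl (τ (L i j)) c
      ≤ ∑ j, ∑ i, dl (κ j) b * dl (τ (L i j)) c := by
        refine Finset.sum_le_sum fun i _ => Finset.sum_le_sum fun j _ => ?_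
        refine Nat.mul_le_mul_right _ ?_
        calc _ ≤ 1 * _ := Nat.mul_le_mul_right _ (nu_le _)
          _ = _ := one_mul _
    _ = ∑ j, dl (κ j) b * m := by
        refine Finset.sum_congr rfl fun j _ => ?_
        rw [← Finset.mul_sum, (hcol j).sum_comp (fun s => dl (τ s) c), mS]
    _ = m * m := by rw [← Finset.sum_mul, mC]

include hrow in
theorem planeA_eq (a : Fin r) : ∑ b, ∑ c, NN L ρ κ τ a b c =
    ∑ i, dl (ρ i) a * ∑ j, nu (κ j) * nu (τ (L i j)) := by
  have e : ∀ b, ∑ c, NN L ρ κ τ a b c = ∑ i, ∑ j, dl (ρ i) a * dl (κ j) b * nu (τ (L i j)) := by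
    intro b
    unfold NN
    rw [Finset.sum_comm]
    refine Finset.sum_congr rfl fun i _ => ?_
    rw [Finset.sum_comm]
    refine Finset.sum_congr rfl fun j _ => ?_
    rw [← Finset.mul_sum, sum_dl]
  simp only [e]
  rw [Finset.sum_comm]
  refine Finset.sum_congr rfl fun i _ => ?_
  rw [Finset.sum_comm, Finset.mul_sum]
  refine Finset.sum_congr rfl fun j _ => ?_
  rw [← Finset.sum_mul, ← Finset.mul_sum, sum_dl, mul_assoc]

theorem planeB_eq (b : Fin r) : ∑ a, ∑ c, NN L ρ κ τ a b c =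
    ∑ j, dl (κ j) b * ∑ i, nu (ρ i) * nu (τ (L i j)) := by
  have e : ∀ a, ∑ c, NN L ρ κ τ a b c = ∑ j, ∑ i, dl (ρ i) a * dl (κ j) b * nu (τ (L i j)) := by
    intro a
    unfold NN
    rw [Finset.sum_comm, Finset.sum_comm (s := univ (α := C))]
    refine Finset.sum_congr rfl fun i _ => ?_
    rw [Finset.sum_comm]
    refine Finset.sum_congr rfl fun j _ => ?_
    rw [← Finset.mul_sum, sum_dl]
  simp only [e]
  rw [Finset.sum_comm]
  refine Finset.sum_congr rfl fun j _ => ?_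
  rw [Finset.sum_comm, Finset.mul_sum]
  refine Finset.sum_congr rfl fun i _ => ?_
  rw [← Finset.sum_mul, ← Finset.sum_mul, sum_dl]
  ring

theorem sum_nu {X : Type} [Fintype X] {φ : X → Option (Fin r)} {m : ℕ}
    (mX : ∀ a, ∑ x, dl (φ x) a = m) : ∑ x, nu (φ x) = r * m := by
  simp only [← sum_dl]
  rw [Finset.sum_comm]
  simp [mX]

include hrow mC mS in
theorem W_ge (n : ℕ) (hn : Fintype.card C = f + r * m) (i : R) :
    r * m ≤ (∑ j, nu (κ j) * nu (τ (L i j))) + f := by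
  have h : ∑ j, (nu (κ j) + nu (τ (L i j))) ≤ ∑ j, (nu (κ j) * nu (τ (L i j)) + 1) :=
    Finset.sum_le_sum fun j _ => nu_mul _ _
  rw [Finset.sum_add_distrib, Finset.sum_add_distrib,
    (hrow i).sum_comp (fun s => nu (τ s)), sum_nu mC, sum_nu mS] at h
  simp only [Finset.sum_const, Finset.card_univ, smul_eq_mul, mul_one] at h
  omega

include hcol mR mS in
theorem W'_ge (n : ℕ) (hn : Fintype.card R = f + r * m) (j : C) :
    r * m ≤ (∑ i, nu (ρ i) * nu (τ (L i j))) + f := by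
  have h : ∑ i, (nu (ρ i) + nu (τ (L i j))) ≤ ∑ i, (nu (ρ i) * nu (τ (L i j)) + 1) :=
    Finset.sum_le_sum fun j _ => nu_mul _ _
  rw [Finset.sum_add_distrib, Finset.sum_add_distrib,
    (hcol j).sum_comp (fun s => nu (τ s)), sum_nu mR, sum_nu mS] at h
  simp only [Finset.sum_const, Finset.card_univ, smul_eq_mul, mul_one] at h
  omega

include hrow mR mC mS in
theorem planeA (hn : Fintype.card C = f + r * m) (a : Fin r) :
    m * (r * m - f) ≤ ∑ b, ∑ c, NN L ρ κ τ a b c := by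
  rw [planeA_eq hrow]
  calc m * (r * m - f) = ∑ i, dl (ρ i) a * (r * m - f) := by rw [← Finset.sum_mul, mR]
    _ ≤ _ := Finset.sum_le_sum fun i _ => Nat.mul_le_mul_left _ (by
        have := W_ge (f := f) hrow mC mS 0 hn i
        omega)

include hcol mR mC mS in
theorem planeB (hn : Fintype.card R = f + r * m) (b : Fin r) :
    m * (r * m - f) ≤ ∑ a, ∑ c, NN L ρ κ τ a b c := by
  rw [planeB_eq]
  calc m * (r * m - f) = ∑ j, dl (κ j) b * (r * m - f) := by rw [← Finset.sum_mul, mC]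
    _ ≤ _ := Finset.sum_le_sum fun j _ => Nat.mul_le_mul_left _ (by
        have := W'_ge (f := f) hcol mR mS 0 hn j
        omega)

theorem NN_ne {a b c : Fin r} (h : NN L ρ κ τ a b c ≠ 0) :
    ∃ i j, ρ i = some a ∧ κ j = some b ∧ τ (L i j) = some c := by
  unfold NN at h
  obtain ⟨i, _, hi⟩ := Finset.exists_ne_zero_of_sum_ne_zero h
  obtain ⟨j, _, hj⟩ := Finset.exists_ne_zero_of_sum_ne_zero hi
  unfold dl at hj
  refine ⟨i, j, ?_, ?_, ?_⟩ <;> (by_contra hh; simp [hh] at hj)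

end

end Pool.Agent.X75.Brs
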